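import Mathlib

/-!
# Powers of functions with a strict maximum at 0
-/

set_option autoImplicit false

open Filter Topology MeasureTheory intervalIntegral

namespace Pool.Agent.Q60.DT

/-- The weight. -/
noncomputable def wt (θ : ℝ) : ℝ := 1 + Real.cos θ

lemma wt_cont : Continuous wt := by unfold wt; fun_prop

lemma wt_nonneg (θ : ℝ) : 0 ≤ wt θ := by
  unfold wt
  linarith [Real.neg_one_le_cos θ]

lemma wt_le (θ : ℝ) : wt θ ≤ 2 := by
  unfold wt
  linarith [Real.cos_le_one θ]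

lemma wt_pos {θ : ℝ} (h0 : 0 ≤ θ) (h1 : θ < Real.pi) : 0 < wt θ := by
  unfold wt
  have := Real.cos_lt_cos_of_nonneg_of_le_pi h0 le_rfl h1
  rw [Real.cos_pi] at this
  linarith

/-- Comparison of the powers of two functions with a strict maximum at `0`. -/
theorem pow_lt {F G : ℝ → ℝ} (hF : Continuous F) (hG : Continuous G) {D : ℝ} (hF0 : F 0 = D)
    (hG0 : G 0 = D) (hD : 0 < D) (hF1 : ∀ θ, 0 < θ → θ ≤ Real.pi → |F θ| < D)
    (hG1 : ∀ θ, 0 < θ → θ ≤ Real.pi → |G θ| < D) {δ : ℝ} (hδ : 0 < δ)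
    (hlt : ∀ θ, 0 < θ → θ < δ → F θ < G θ) :
    ∀ᶠ n : ℕ in atTop, ∫ θ in (0 : ℝ)..Real.pi, F θ ^ n * wt θ <
      ∫ θ in (0 : ℝ)..Real.pi, G θ ^ n * wt θ := by
  have hπ := Real.pi_pos
  -- shrink `δ`
  obtain ⟨δ₀, hδ₀, hFpos⟩ : ∃ δ₀ : ℝ, 0 < δ₀ ∧ ∀ θ, |θ| < δ₀ → 0 < F θ := by
    have h1 : ∀ᶠ θ in 𝓝 (0 : ℝ), 0 < F θ :=
      hF.continuousAt.eventually (lt_mem_nhds (by rw [hF0]; exact hD))
    obtain ⟨ε, hε, h2⟩ := Metric.eventually_nhds_iff.1 h1
    exact ⟨ε, hε, fun θ hθ => h2 (by rwa [Real.dist_eq, sub_zero])⟩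
  set d : ℝ := min (min (δ / 2) (δ₀ / 2)) (Real.pi / 2) with hd
  have hd0 : 0 < d := by
    rw [hd]
    exact lt_min (lt_min (by linarith) (by linarith)) (by linarith)
  have hd1 : d < δ := lt_of_le_of_lt ((min_le_left _ _).trans (min_le_left _ _)) (by linarith)
  have hd2 : d < δ₀ := lt_of_le_of_lt ((min_le_left _ _).trans (min_le_right _ _)) (by linarith)
  have hd3 : d < Real.pi := lt_of_le_of_lt (min_le_right _ _) (by linarith)
  -- the bound away from `0`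
  obtain ⟨ρ', hρ'0, hρ'D, hρ'⟩ : ∃ ρ' : ℝ, 0 ≤ ρ' ∧ ρ' < D ∧
      ∀ θ, d ≤ θ → θ ≤ Real.pi → |F θ| ≤ ρ' ∧ |G θ| ≤ ρ' := by
    have hne : (Set.Icc d Real.pi).Nonempty := ⟨d, le_rfl, hd3.le⟩
    obtain ⟨x, hx, hx'⟩ := isCompact_Icc.exists_isMaxOn hne
      (f := fun θ => max |F θ| |G θ|) (by fun_prop)
    refine ⟨max |F x| |G x|, le_max_of_le_left (abs_nonneg _), ?_, fun θ h1 h2 => ?_⟩
    · exact max_lt (hF1 x (hd0.trans_le hx.1) hx.2) (hG1 x (hd0.trans_le hx.1) hx.2)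
    · have := hx' (show θ ∈ Set.Icc d Real.pi from ⟨h1, h2⟩)
      exact ⟨(le_max_left _ _).trans this, (le_max_right _ _).trans this⟩
  obtain ⟨ρ, hρ1, hρ2⟩ := exists_between hρ'D
  have hρ0 : 0 < ρ := by linarith
  -- a small interval where `G > ρ`
  obtain ⟨δ₁, hδ₁, hGρ⟩ : ∃ δ₁ : ℝ, 0 < δ₁ ∧ ∀ θ, |θ| < δ₁ → ρ < G θ := by
    have h1 : ∀ᶠ θ in 𝓝 (0 : ℝ), ρ < G θ :=
      hG.continuousAt.eventually (lt_mem_nhds (by rw [hG0]; exact hρ2))
    obtain ⟨ε, hε, h2⟩ := Metric.eventually_nhds_iff.1 h1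
    exact ⟨ε, hε, fun θ hθ => h2 (by rwa [Real.dist_eq, sub_zero])⟩
  set e : ℝ := min (δ₁ / 2) d with he
  have he0 : 0 < e := lt_min (by linarith) hd0
  have he1 : e < δ₁ := lt_of_le_of_lt (min_le_left _ _) (by linarith)
  have he2 : e ≤ d := min_le_right _ _
  obtain ⟨c, hc0, hc⟩ : ∃ c : ℝ, 0 < c ∧ ∀ θ, e / 2 ≤ θ → θ ≤ e → c ≤ (G θ - F θ) * wt θ := by
    have hne : (Set.Icc (e / 2) e).Nonempty := ⟨e, by constructor <;> linarith⟩
    obtain ⟨x, hx, hx'⟩ := isCompact_Icc.exists_isMinOn hne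
      (f := fun θ => (G θ - F θ) * wt θ) ((hG.sub hF).mul wt_cont).continuousOn
    refine ⟨(G x - F x) * wt x, ?_, fun θ h1 h2 => hx' ⟨h1, h2⟩⟩
    have h1 : 0 < x := by linarith [hx.1]
    have h2 : x < δ := by linarith [hx.2]
    exact mul_pos (sub_pos.2 (hlt x h1 h2)) (wt_pos h1.le (by linarith [hx.2]))
  -- the estimate
  have hint : ∀ (K : ℝ → ℝ) (_ : Continuous K) (n : ℕ) (x y : ℝ),
      IntervalIntegrable (fun θ => K θ ^ n * wt θ) volume x y := fun K hK n x y =>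
    ((hK.pow n).mul wt_cont).intervalIntegrable _ _
  have hpt : ∀ n : ℕ, ∀ θ, 0 ≤ θ → θ ≤ d → F θ ^ n * wt θ ≤ G θ ^ n * wt θ := by
    intro n θ h0 h1
    have hF' : 0 < F θ := hFpos θ (by rw [abs_of_nonneg h0]; linarith)
    have hFG : F θ ≤ G θ := by
      rcases h0.eq_or_lt with h2 | h2
      · rw [← h2, hF0, hG0]
      · exact (hlt θ h2 (by linarith)).le
    exact mul_le_mul_of_nonneg_right (pow_le_pow_left₀ hF'.le hFG n) (wt_nonneg θ)
  have key : ∀ n : ℕ, (e / 2) * (c * ρ ^ n) - (Real.pi - d) * (4 * ρ' ^ (n + 1)) ≤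
      (∫ θ in (0 : ℝ)..Real.pi, G θ ^ (n + 1) * wt θ) -
        ∫ θ in (0 : ℝ)..Real.pi, F θ ^ (n + 1) * wt θ := by
    intro n
    rw [← integral_sub (hint G hG _ _ _) (hint F hF _ _ _)]
    have hc1 : Continuous fun θ => G θ ^ (n + 1) * wt θ - F θ ^ (n + 1) * wt θ :=
      ((hG.pow _).mul wt_cont).sub ((hF.pow _).mul wt_cont)
    have hI : ∀ x y : ℝ, IntervalIntegrable
        (fun θ => G θ ^ (n + 1) * wt θ - F θ ^ (n + 1) * wt θ) volume x y :=
      fun x y => hc1.intervalIntegrable _ _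
    rw [← integral_add_adjacent_intervals (hI 0 (e / 2)) (hI (e / 2) Real.pi),
      ← integral_add_adjacent_intervals (hI (e / 2) e) (hI e Real.pi),
      ← integral_add_adjacent_intervals (hI e d) (hI d Real.pi)]
    have h1 : 0 ≤ ∫ θ in (0 : ℝ)..(e / 2), G θ ^ (n + 1) * wt θ - F θ ^ (n + 1) * wt θ := by
      refine integral_nonneg (by linarith) fun θ hθ => ?_
      linarith [hpt (n + 1) θ hθ.1 (by linarith [hθ.2])]
    have h2 : 0 ≤ ∫ θ in e..d, G θ ^ (n + 1) * wt θ - F θ ^ (n + 1) * wt θ := by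
      refine integral_nonneg he2 fun θ hθ => ?_
      linarith [hpt (n + 1) θ (by linarith [hθ.1]) hθ.2]
    have h3 : (e / 2) * (c * ρ ^ n) ≤
        ∫ θ in (e / 2)..e, G θ ^ (n + 1) * wt θ - F θ ^ (n + 1) * wt θ := by
      have h4 : ∫ _ in (e / 2)..e, c * ρ ^ n ≤
          ∫ θ in (e / 2)..e, G θ ^ (n + 1) * wt θ - F θ ^ (n + 1) * wt θ := by
        refine integral_mono_on (by linarith) (by simp) (hI _ _) fun θ hθ => ?_
        have hθ0 : 0 < θ := by linarith [hθ.1]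
        have hF' : 0 < F θ := hFpos θ (by rw [abs_of_pos hθ0]; linarith [hθ.2])
        have hG' : ρ < G θ := hGρ θ (by rw [abs_of_pos hθ0]; linarith [hθ.2])
        have hFG : F θ ≤ G θ := (hlt θ hθ0 (by linarith [hθ.2])).le
        have h5 : (G θ - F θ) * G θ ^ n ≤ G θ ^ (n + 1) - F θ ^ (n + 1) := by
          have h6 : F θ ^ n ≤ G θ ^ n := pow_le_pow_left₀ hF'.le hFG n
          have h7 : F θ * F θ ^ n ≤ F θ * G θ ^ n := by gcongr
          rw [pow_succ, pow_succ]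
          nlinarith
        calc c * ρ ^ n ≤ ((G θ - F θ) * wt θ) * G θ ^ n := by
              apply mul_le_mul (hc θ hθ.1 hθ.2) (pow_le_pow_left₀ hρ0.le hG'.le n) (by positivity)
              exact mul_nonneg (by linarith) (wt_nonneg θ)
          _ = ((G θ - F θ) * G θ ^ n) * wt θ := by ring
          _ ≤ (G θ ^ (n + 1) - F θ ^ (n + 1)) * wt θ :=
              mul_le_mul_of_nonneg_right h5 (wt_nonneg θ)
          _ = _ := by ring
      rw [intervalIntegral.integral_const, smul_eq_mul] at h4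
      calc (e / 2) * (c * ρ ^ n) = (e - e / 2) * (c * ρ ^ n) := by ring
        _ ≤ _ := h4
    have h6 : -((Real.pi - d) * (4 * ρ' ^ (n + 1))) ≤
        ∫ θ in d..Real.pi, G θ ^ (n + 1) * wt θ - F θ ^ (n + 1) * wt θ := by
      have h7 : ∫ _ in d..Real.pi, -(4 * ρ' ^ (n + 1)) ≤
          ∫ θ in d..Real.pi, G θ ^ (n + 1) * wt θ - F θ ^ (n + 1) * wt θ := by
        refine integral_mono_on hd3.le (by simp) (hI _ _) fun θ hθ => ?_
        obtain ⟨h8, h9⟩ := hρ' θ hθ.1 hθ.2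
        have h10 : |G θ ^ (n + 1) * wt θ| ≤ ρ' ^ (n + 1) * 2 := by
          rw [abs_mul, abs_pow, abs_of_nonneg (wt_nonneg θ)]
          exact mul_le_mul (pow_le_pow_left₀ (abs_nonneg _) h9 _) (wt_le θ) (wt_nonneg θ)
            (by positivity)
        have h11 : |F θ ^ (n + 1) * wt θ| ≤ ρ' ^ (n + 1) * 2 := by
          rw [abs_mul, abs_pow, abs_of_nonneg (wt_nonneg θ)]
          exact mul_le_mul (pow_le_pow_left₀ (abs_nonneg _) h8 _) (wt_le θ) (wt_nonneg θ)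
            (by positivity)
        have h12 := neg_abs_le (G θ ^ (n + 1) * wt θ)
        have h13 := le_abs_self (F θ ^ (n + 1) * wt θ)
        linarith
      rw [intervalIntegral.integral_const, smul_eq_mul] at h7
      linarith
    linarith
  -- conclusion
  have hlim : Tendsto (fun n : ℕ => (Real.pi - d) * (4 * ρ') * (ρ' / ρ) ^ n) atTop (𝓝 0) := by
    have : |ρ' / ρ| < 1 := by
      rw [abs_of_nonneg (by positivity), div_lt_one hρ0]
      exact hρ1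
    have := (tendsto_pow_atTop_nhds_zero_of_abs_lt_one this).const_mul ((Real.pi - d) * (4 * ρ'))
    rwa [mul_zero] at this
  have hev := hlim.eventually (gt_mem_nhds (show 0 < (e / 2) * c by positivity))
  have hev' : ∀ᶠ n : ℕ in atTop, ∫ θ in (0 : ℝ)..Real.pi, F θ ^ (n + 1) * wt θ <
      ∫ θ in (0 : ℝ)..Real.pi, G θ ^ (n + 1) * wt θ := by
    filter_upwards [hev] with n hn
    have h1 := key n
    have h2 : (Real.pi - d) * (4 * ρ' ^ (n + 1)) < (e / 2) * (c * ρ ^ n) := by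
      have h3 : (ρ' / ρ) ^ n * ρ ^ n = ρ' ^ n := by
        rw [← mul_pow, div_mul_cancel₀ _ hρ0.ne']
      have h4 : 0 < ρ ^ n := by positivity
      calc (Real.pi - d) * (4 * ρ' ^ (n + 1)) =
            ((Real.pi - d) * (4 * ρ') * (ρ' / ρ) ^ n) * ρ ^ n := by
              rw [mul_assoc _ ((ρ' / ρ) ^ n), h3]
              ring
        _ < ((e / 2) * c) * ρ ^ n := by gcongr
        _ = _ := by ring
    linarith
  exact (tendsto_sub_atTop_nat 1).eventually hev' |>.mp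
    ((eventually_ge_atTop 1).mono fun n hn h => by
      have : n - 1 + 1 = n := by omega
      rwa [this] at h)

/-- The sign of an analytic function on the right of a point. -/
theorem sign_right {H : ℝ → ℝ} (hH : Continuous H) (ha : AnalyticAt ℝ H 0) :
    (H =ᶠ[𝓝 0] 0) ∨ (∃ δ : ℝ, 0 < δ ∧ ∀ θ, 0 < θ → θ < δ → 0 < H θ) ∨
      ∃ δ : ℝ, 0 < δ ∧ ∀ θ, 0 < θ → θ < δ → H θ < 0 := by
  rcases ha.eventually_eq_zero_or_eventually_ne_zero with h | h
  · exact Or.inl h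
  right
  obtain ⟨δ, hδ, h2⟩ := Metric.eventually_nhds_iff.1 (eventually_nhdsWithin_iff.1 h)
  have hne : ∀ θ, 0 < θ → θ < δ → H θ ≠ 0 := fun θ h3 h4 =>
    h2 (by rwa [Real.dist_eq, sub_zero, abs_of_pos h3]) h3.ne'
  rcases lt_or_gt_of_ne (hne (δ / 2) (by linarith) (by linarith)) with h5 | h5
  · right
    refine ⟨δ, hδ, fun θ h3 h4 => ?_⟩
    by_contra hcon
    rw [not_lt] at hcon
    obtain ⟨x, hx, hx'⟩ := intermediate_value_uIcc (a := δ / 2) (b := θ) (f := H)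
      hH.continuousOn (show (0 : ℝ) ∈ Set.uIcc (H (δ / 2)) (H θ) from
        Set.mem_uIcc.2 (Or.inl ⟨h5.le, hcon⟩))
    rcases Set.mem_uIcc.1 hx with h6 | h6
    · exact hne x (by linarith [h6.1]) (by linarith [h6.2]) hx'
    · exact hne x (by linarith [h6.1]) (by linarith [h6.2]) hx'
  · left
    refine ⟨δ, hδ, fun θ h3 h4 => ?_⟩
    by_contra hcon
    rw [not_lt] at hcon
    obtain ⟨x, hx, hx'⟩ := intermediate_value_uIcc (a := δ / 2) (b := θ) (f := H)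
      hH.continuousOn (show (0 : ℝ) ∈ Set.uIcc (H (δ / 2)) (H θ) from
        Set.mem_uIcc.2 (Or.inr ⟨hcon, h5.le⟩))
    rcases Set.mem_uIcc.1 hx with h6 | h6
    · exact hne x (by linarith [h6.1]) (by linarith [h6.2]) hx'
    · exact hne x (by linarith [h6.1]) (by linarith [h6.2]) hx'

/-- Infinitely many common moments. -/
theorem eq_of_moments {F G : ℝ → ℝ} (hF : Continuous F) (hG : Continuous G)
    (hFa : AnalyticAt ℝ F 0) (hGa : AnalyticAt ℝ G 0) {D : ℝ} (hF0 : F 0 = D)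
    (hG0 : G 0 = D) (hD : 0 < D) (hF1 : ∀ θ, 0 < θ → θ ≤ Real.pi → |F θ| < D)
    (hG1 : ∀ θ, 0 < θ → θ ≤ Real.pi → |G θ| < D)
    (h : ∃ᶠ n : ℕ in atTop, ∫ θ in (0 : ℝ)..Real.pi, F θ ^ n * wt θ =
      ∫ θ in (0 : ℝ)..Real.pi, G θ ^ n * wt θ) : F =ᶠ[𝓝 0] G := by
  rcases sign_right (hF.sub hG) (hFa.sub hGa) with h1 | ⟨δ, hδ, h1⟩ | ⟨δ, hδ, h1⟩
  · exact h1.mono fun θ hθ => sub_eq_zero.1 hθ
  · exfalso
    obtain ⟨n, hn, hn'⟩ := (h.and_eventually (pow_lt hG hF hG0 hF0 hD hG1 hF1 hδ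
      fun θ h2 h3 => sub_pos.1 (h1 θ h2 h3))).exists
    rw [hn] at hn'
    exact lt_irrefl _ hn'
  · exfalso
    obtain ⟨n, hn, hn'⟩ := (h.and_eventually (pow_lt hF hG hF0 hG0 hD hF1 hG1 hδ
      fun θ h2 h3 => sub_neg.1 (h1 θ h2 h3))).exists
    rw [hn] at hn'
    exact lt_irrefl _ hn'

end Pool.Agent.Q60.DT
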