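import Pool.Agent.Q60.DT.Det
import Pool.Agent.Q60.SS.Tate3

/-!
# The dimensions of the invariants on the powers determine the Jordan types
-/

set_option autoImplicit false

open Module TensorProduct Filter Topology

namespace Pool.Agent.Q60.DT

universe u v w v' w'

open Pool.Agent.Y163.MW Pool.Agent.Y136.UB Pool.Agent.Q60.PL Pool.Agent.Q60.SS Pool.Agent.H914

/-- The dimension of the space of the vectors of `H^j` fixed by `F`. -/
noncomputable def inv {Ω : Type w} [Field Ω] (R : FCoh.{v, w} Ω) (j : ℕ) : ℕ :=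
  finrank Ω (R.gr j ⊓ R.F.eigenspace 1 : Submodule Ω R.V)

/-- The dimension of the kernel of `(F - 1) ^ k` on `H^j`. -/
noncomputable def kerDim {Ω : Type w} [Field Ω] (R : FCoh.{v, w} Ω) (j k : ℕ) : ℕ :=
  finrank Ω (R.gr j ⊓ LinearMap.ker ((R.F - algebraMap Ω (Module.End Ω R.V) 1) ^ k) :
    Submodule Ω R.V)

/-- `F` is unipotent. -/
def Unip {Ω : Type w} [Field Ω] (R : FCoh.{v, w} Ω) : Prop := R.F.maxGenEigenspace 1 = ⊤

section

variable {Ω : Type w} [Field Ω] [CharZero Ω] {R : FCoh.{v, w} Ω} {I : Type} [Finite I]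
  {N e h S D : Module.End Ω R.V} {b : Basis I Ω R.V} {α : I → Ω} {a : I → ℤ} {m : I → ℕ}

lemma finrank_kerk (hR : DirectSum.IsInternal R.gr) (H : IsJ R.F b α a S N e h)
    (HD : IsDeg b m D N e) (hb : ∀ i, b i ∈ R.gr (m i)) (M : ℕ) (γ : Ω) (k : ℕ) :
    finrank Ω (R.gr M ⊓ LinearMap.ker ((R.F - algebraMap Ω (Module.End Ω R.V) γ) ^ k) :
      Submodule Ω R.V) = Nat.card {i // (α i = γ ∧ m i = M) ∧ -(k : ℤ) < a i ∧ a i ≤ k} := by
  have e2 : R.gr M ⊓ LinearMap.ker ((R.F - algebraMap Ω (Module.End Ω R.V) γ) ^ k) =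
      LinearMap.ker (N ^ k) ⊓ Submodule.span Ω (b '' {i | α i = γ ∧ m i = M}) := by
    rw [H.ker_eq, ← gpc_eq hR H hb, ← H.gen_eq]
    unfold gpc
    rw [inf_left_comm]
  have hst : ∀ T : Module.End Ω R.V, S * T = T * S → D * T = T * D →
      ∀ x ∈ Submodule.span Ω (b '' {i | α i = γ ∧ m i = M}),
      T x ∈ Submodule.span Ω (b '' {i | α i = γ ∧ m i = M}) := by
    intro T hT hT' x hx
    rw [mem_span2 H HD] at hx ⊢
    have h1 : S (T x) = T (S x) := LinearMap.congr_fun hT x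
    have h2 : D (T x) = T (D x) := LinearMap.congr_fun hT' x
    rw [h1, h2, hx.1, hx.2, map_smul, map_smul]
    exact ⟨rfl, rfl⟩
  rw [e2, finrank_ker_sub H.sl (fun i => α i = γ ∧ m i = M) (hst N H.SN HD.N)
    (hst e H.Se HD.e) k]

lemma alpha_one (hu : Unip R) (H : IsJ R.F b α a S N e h) (i : I) : α i = 1 := by
  by_contra hcon
  have h1 : b i ∈ R.F.maxGenEigenspace (α i) := by
    rw [H.gen_eq]
    exact Submodule.subset_span ⟨i, rfl, rfl⟩
  have h2 : b i ∈ R.F.maxGenEigenspace 1 := by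
    rw [hu]
    exact Submodule.mem_top
  have h3 := (Module.End.independent_maxGenEigenspace R.F).pairwiseDisjoint hcon
  rw [Function.onFun, Submodule.disjoint_def] at h3
  exact b.ne_zero i (h3 _ h1 h2)

/-- The adapted family of the cohomology. -/
structure Adapted {Ω : Type w} [Field Ω] (R : FCoh.{v, w} Ω) {I : Type} (m : I → ℕ) (a : I → ℤ) :
    Prop where
  dim : ∀ j, finrank Ω (R.gr j) = Nat.card {i // m i = j}
  ker : ∀ j k : ℕ, kerDim R j k = Nat.card {i // m i = j ∧ -(k : ℤ) < a i ∧ a i ≤ k}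
  inv : ∀ j, inv R j = Nat.card {i // (a i = 0 ∨ a i = 1) ∧ m i = j}

lemma adapted (hR : DirectSum.IsInternal R.gr) (H : IsJ R.F b α a S N e h)
    (HD : IsDeg b m D N e) (hb : ∀ i, b i ∈ R.gr (m i)) (hα : ∀ i, α i = 1) :
    Adapted R m a where
  dim := by
    intro j
    have h1 : R.gr j ⊓ R.F.maxGenEigenspace 1 = R.gr j := by
      have h2 : R.F.maxGenEigenspace 1 = ⊤ := by
        rw [H.gen_eq]
        have : {i | α i = 1} = Set.univ := by
          ext i
          simp [hα i]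
        rw [this, Set.image_univ, b.span_eq]
      rw [h2, inf_top_eq]
    have h3 := finrank_gpc hR H hb j 1
    unfold gpc at h3
    rw [h1] at h3
    rw [h3]
    exact Nat.card_congr (Equiv.subtypeEquivRight fun i => ⟨fun h => h.2, fun h => ⟨hα i, h⟩⟩)
  ker := by
    intro j k
    unfold kerDim
    rw [finrank_kerk hR H HD hb]
    exact Nat.card_congr (Equiv.subtypeEquivRight fun i =>
      ⟨fun h => ⟨h.1.2, h.2⟩, fun h => ⟨⟨hα i, h.1⟩, h.2⟩⟩)
  inv := by
    intro j
    unfold DT.inv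
    rw [finrank_eig hR H HD hb]
    exact Nat.card_congr (Equiv.subtypeEquivRight fun i =>
      ⟨fun h => ⟨h.2.2, h.2.1⟩, fun h => ⟨hα i, h.2, h.1⟩⟩)

end

/-- The families of the powers. -/
theorem exists_family {Ω : Type w} [Field Ω] [CharZero Ω] [IsAlgClosed Ω]
    {R : ℕ → FCoh.{v, w} Ω} (hR : IsFCoh (R 0)) (hint : ∀ n, DirectSum.IsInternal (R n).gr)
    (hκ : ∀ n, ∃ κ, IsFKunneth (R 0) (R n) (R (n + 1)) κ) (hu : Unip (R 0))
    (h1 : finrank Ω ((R 0).gr 0) = 1) :
    ∃ (I : Type) (_ : Fintype I) (m : I → ℕ) (a : I → ℤ), IsFam m a ∧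
      Adapted (R 0) m a ∧ ∀ n, Adapted (R n) (fun g : Fin (n + 1) → I => ∑ k, m (g k))
        (fun g => ∑ k, a (g k)) := by
  classical
  have := hR.finite
  obtain ⟨ι, hι, len, αs, ms, b, S, N, e, h, D, HJ, ⟨hD1, hD2, hD3⟩, hb⟩ :=
    exists_JD hR.isInternal hR.F_gr hR.inj
  have HD : IsDeg b (fun p : Σ s : ι, Fin (len s + 1) => ms p.1) D N e := ⟨hD1, hD2, hD3⟩
  have HA : DAdp (R 0) (fun p : Σ s : ι, Fin (len s + 1) => αs p.1) (sw len)
      (fun p => ms p.1) := ⟨b, S, N, e, h, D, HJ, HD, hb⟩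
  have hα : ∀ p : Σ s : ι, Fin (len s + 1), αs p.1 = 1 := alpha_one hu HJ
  have hA0 : Adapted (R 0) (fun p : Σ s : ι, Fin (len s + 1) => ms p.1) (sw len) :=
    adapted hR.isInternal HJ HD hb hα
  refine ⟨_, inferInstance, fun p : Σ s : ι, Fin (len s + 1) => ms p.1, sw len, ?_, hA0, ?_⟩
  · refine ⟨?_, ?_, ?_⟩
    · refine ⟨Equiv.sigmaCongrRight fun s => Fin.revPerm, ?_⟩
      rintro ⟨s, i⟩
      refine ⟨rfl, ?_⟩
      show (len s : ℤ) - 2 * ((Fin.rev i : Fin (len s + 1)) : ℕ) =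
        -((len s : ℤ) - 2 * (i : ℕ))
      rw [Fin.val_rev]
      have := i.2
      omega
    · have h2 := hA0.dim 0
      rw [h1] at h2
      have h3 : Nonempty {p : Σ s : ι, Fin (len s + 1) // ms p.1 = 0} := by
        by_contra hcon
        rw [not_nonempty_iff] at hcon
        rw [Nat.card_of_isEmpty] at h2
        omega
      obtain ⟨⟨s, i⟩, hi⟩ := h3
      refine ⟨⟨s, i⟩, hi, ?_⟩
      have hlen : len s = 0 := by
        by_contra hcon
        have h4 : ({⟨s, ⟨0, by omega⟩⟩, ⟨s, ⟨1, by omega⟩⟩} :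
            Finset (Σ s : ι, Fin (len s + 1))).card ≤
            Nat.card {p : Σ s : ι, Fin (len s + 1) // ms p.1 = 0} := by
          rw [Nat.card_eq_fintype_card, Fintype.card_subtype]
          refine Finset.card_le_card fun p hp => ?_
          simp only [Finset.mem_insert, Finset.mem_singleton] at hp
          rcases hp with rfl | rfl
          · simpa using hi
          · simpa using hi
        rw [Finset.card_pair (by simp), ← h2] at h4
        omega
      unfold sw
      have := i.2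
      simp only
      omega
    · by_cases hz : ∀ s, len s = 0
      · left
        rintro ⟨s, i⟩
        unfold sw
        have := i.2
        have := hz s
        simp only
        omega
      right
      by_cases he : ∀ s, Even (len s)
      · left
        refine ⟨?_, ?_⟩
        · rintro ⟨s, i⟩
          obtain ⟨c, hc⟩ := he s
          have hc' : ((len s : ℕ) : ℤ) = c + c := by exact_mod_cast hc
          refine ⟨(c : ℤ) - (i : ℕ), ?_⟩
          show ((len s : ℕ) : ℤ) - 2 * ((i : ℕ) : ℤ) = _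
          linarith
        · push Not at hz
          obtain ⟨s, hs⟩ := hz
          obtain ⟨c, hc⟩ := he s
          refine ⟨⟨s, ⟨c - 1, by omega⟩⟩, ?_⟩
          unfold sw
          simp only
          omega
      · right
        obtain ⟨s, hs⟩ := not_forall.1 he
        obtain ⟨c, hc⟩ := Nat.not_even_iff_odd.1 hs
        refine ⟨⟨s, ⟨c, by omega⟩⟩, ?_⟩
        unfold sw
        simp only
        omega
  · intro n
    obtain ⟨b', S', N', e', h', D', H', HD', hb'⟩ := HA.pow hκ n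
    exact adapted (hint n) H' HD' hb' (fun g => Finset.prod_eq_one fun k _ => hα _)

lemma card_split {I : Type*} [Finite I] (m : I → ℕ) (a : I → ℤ) (j k : ℕ) :
    Nat.card {i // m i = j ∧ -((k + 1 : ℕ) : ℤ) < a i ∧ a i ≤ ((k + 1 : ℕ) : ℤ)} =
      Nat.card {i // m i = j ∧ -(k : ℤ) < a i ∧ a i ≤ k} +
      (Nat.card {i // m i = j ∧ a i = -(k : ℤ)} +
        Nat.card {i // m i = j ∧ a i = ((k + 1 : ℕ) : ℤ)}) := by
  classical
  have := Fintype.ofFinite I
  simp only [Nat.card_eq_fintype_card, Fintype.card_subtype]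
  rw [← Finset.card_union_of_disjoint, ← Finset.card_union_of_disjoint]
  · congr 1
    ext i
    simp only [Finset.mem_filter, Finset.mem_univ, true_and, Finset.mem_union]
    push_cast
    omega
  · rw [Finset.disjoint_left]
    intro i
    simp only [Finset.mem_filter, Finset.mem_univ, true_and, Finset.mem_union]
    push_cast
    omega
  · rw [Finset.disjoint_left]
    intro i
    simp only [Finset.mem_filter, Finset.mem_univ, true_and]
    push_cast
    omega

/-- The windows determine the family. -/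
theorem family_of_windows {I I' : Type*} [Finite I] [Finite I'] {m : I → ℕ} {a : I → ℤ}
    {m' : I' → ℕ} {a' : I' → ℤ} (hs : ∃ σ : I ≃ I, ∀ i, m (σ i) = m i ∧ a (σ i) = -a i)
    (hs' : ∃ σ : I' ≃ I', ∀ i, m' (σ i) = m' i ∧ a' (σ i) = -a' i)
    (h : ∀ j k : ℕ, Nat.card {i // m i = j ∧ -(k : ℤ) < a i ∧ a i ≤ k} =
      Nat.card {i // m' i = j ∧ -(k : ℤ) < a' i ∧ a' i ≤ k}) (j : ℕ) (r : ℤ) :
    Nat.card {i // m i = j ∧ a i = r} = Nat.card {i // m' i = j ∧ a' i = r} := by
  classical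
  have := Fintype.ofFinite I
  have := Fintype.ofFinite I'
  have hsym : ∀ r : ℤ, Nat.card {i // m i = j ∧ a i = -r} = Nat.card {i // m i = j ∧ a i = r} := by
    intro r
    obtain ⟨σ, hσ⟩ := hs
    refine Nat.card_congr (σ.subtypeEquiv fun i => ?_)
    rw [(hσ i).1, (hσ i).2]
    omega
  have hsym' : ∀ r : ℤ, Nat.card {i // m' i = j ∧ a' i = -r} =
      Nat.card {i // m' i = j ∧ a' i = r} := by
    intro r
    obtain ⟨σ, hσ⟩ := hs'
    refine Nat.card_congr (σ.subtypeEquiv fun i => ?_)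
    rw [(hσ i).1, (hσ i).2]
    omega
  have hrec : ∀ k : ℕ, Nat.card {i // m i = j ∧ a i = (k : ℤ)} +
      Nat.card {i // m i = j ∧ a i = ((k + 1 : ℕ) : ℤ)} =
      Nat.card {i // m' i = j ∧ a' i = (k : ℤ)} +
      Nat.card {i // m' i = j ∧ a' i = ((k + 1 : ℕ) : ℤ)} := by
    intro k
    have h1 := card_split m a j k
    have h2 := card_split m' a' j k
    rw [hsym] at h1
    rw [hsym'] at h2
    rw [h j (k + 1), h j k] at h1
    omega
  obtain ⟨K, hK⟩ : ∃ K : ℕ, ∀ k : ℕ, K ≤ k → Nat.card {i // m i = j ∧ a i = (k : ℤ)} =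
      Nat.card {i // m' i = j ∧ a' i = (k : ℤ)} := by
    refine ⟨Finset.univ.sup (fun i => (a i).natAbs + 1) +
      Finset.univ.sup (fun i => (a' i).natAbs + 1), fun k hk => ?_⟩
    have e1 : IsEmpty {i // m i = j ∧ a i = (k : ℤ)} := ⟨fun ⟨i, h1, h2⟩ => by
      have : (a i).natAbs + 1 ≤ Finset.univ.sup (fun i => (a i).natAbs + 1) :=
        Finset.le_sup (f := fun i => (a i).natAbs + 1) (Finset.mem_univ i)
      omega⟩
    have e2 : IsEmpty {i // m' i = j ∧ a' i = (k : ℤ)} := ⟨fun ⟨i, h1, h2⟩ => by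
      have : (a' i).natAbs + 1 ≤ Finset.univ.sup (fun i => (a' i).natAbs + 1) :=
        Finset.le_sup (f := fun i => (a' i).natAbs + 1) (Finset.mem_univ i)
      omega⟩
    rw [Nat.card_of_isEmpty, Nat.card_of_isEmpty]
  have hall : ∀ K : ℕ, (∀ k : ℕ, K ≤ k → Nat.card {i // m i = j ∧ a i = (k : ℤ)} =
      Nat.card {i // m' i = j ∧ a' i = (k : ℤ)}) → ∀ k : ℕ,
      Nat.card {i // m i = j ∧ a i = (k : ℤ)} = Nat.card {i // m' i = j ∧ a' i = (k : ℤ)} := by
    intro K
    induction K with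
    | zero => exact fun h k => h k (Nat.zero_le k)
    | succ K ih =>
      intro hK
      refine ih fun k hk => ?_
      rcases hk.eq_or_lt with rfl | hk
      · have h1 := hrec K
        have h2 := hK (K + 1) le_rfl
        omega
      · exact hK k hk
  have hnat := hall K hK
  rcases le_total 0 r with hr | hr
  · obtain ⟨k, rfl⟩ := Int.eq_ofNat_of_zero_le hr
    exact hnat k
  · obtain ⟨k, hk⟩ := Int.eq_ofNat_of_zero_le (show 0 ≤ -r by omega)
    rw [← hsym, ← hsym', hk]
    exact hnat k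

/-- **The theorem for two cohomologies.** -/
theorem jordan_iff {Ω : Type w} [Field Ω] [CharZero Ω] [IsAlgClosed Ω] {Ω' : Type w'} [Field Ω']
    [CharZero Ω'] [IsAlgClosed Ω'] {R : ℕ → FCoh.{v, w} Ω} {R' : ℕ → FCoh.{v', w'} Ω'}
    (hR : IsFCoh (R 0)) (hint : ∀ n, DirectSum.IsInternal (R n).gr)
    (hκ : ∀ n, ∃ κ, IsFKunneth (R 0) (R n) (R (n + 1)) κ) (hu : Unip (R 0))
    (h1 : finrank Ω ((R 0).gr 0) = 1)
    (hR' : IsFCoh (R' 0)) (hint' : ∀ n, DirectSum.IsInternal (R' n).gr)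
    (hκ' : ∀ n, ∃ κ, IsFKunneth (R' 0) (R' n) (R' (n + 1)) κ) (hu' : Unip (R' 0))
    (h1' : finrank Ω' ((R' 0).gr 0) = 1)
    (hdim : ∀ j, finrank Ω ((R 0).gr j) = finrank Ω' ((R' 0).gr j)) :
    ((∃ᶠ n in atTop, ∀ j, inv (R n) j = inv (R' n) j) →
      ∀ j k, kerDim (R 0) j k = kerDim (R' 0) j k) ∧
    ((∀ j k, kerDim (R 0) j k = kerDim (R' 0) j k) →
      ∀ n j, inv (R n) j = inv (R' n) j ∧ ∀ k, kerDim (R n) j k = kerDim (R' n) j k) := by
  classical
  obtain ⟨I, _, m, a, hF, hA, hAn⟩ := exists_family hR hint hκ hu h1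
  obtain ⟨I', _, m', a', hF', hA', hAn'⟩ := exists_family hR' hint' hκ' hu' h1'
  constructor
  · intro h
    have h2 : ∃ᶠ n : ℕ in atTop, ∀ j, wds m a n j = wds m' a' n j := by
      rw [frequently_atTop] at h ⊢
      intro n0
      obtain ⟨n, hn, hn'⟩ := h n0
      refine ⟨n + 1, by omega, fun j => ?_⟩
      have h3 := hn' j
      rw [(hAn n).inv, (hAn' n).inv] at h3
      exact h3
    have h3 := determine hF hF' (fun j => by rw [← hA.dim, ← hA'.dim, hdim]) h2
    intro j k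
    obtain ⟨E, hE⟩ := exists_equiv (fun i => (m i, a i)) (fun i => (m' i, a' i)) (by
      rintro ⟨j, r⟩
      simp only [Prod.mk.injEq]
      exact h3 j r)
    rw [hA.ker, hA'.ker]
    refine Nat.card_congr (E.subtypeEquiv fun i => ?_)
    have h4 := hE i
    simp only [Prod.mk.injEq] at h4
    rw [h4.1, h4.2]
  · intro h n j
    have h3 := family_of_windows hF.sym hF'.sym (fun j k => by rw [← hA.ker, ← hA'.ker, h])
    obtain ⟨E, hE⟩ := exists_equiv (fun i => (m i, a i)) (fun i => (m' i, a' i)) (by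
      rintro ⟨j, r⟩
      simp only [Prod.mk.injEq]
      exact h3 j r)
    have hE1 : ∀ i, m' (E i) = m i := fun i => (Prod.mk.inj (hE i)).1
    have hE2 : ∀ i, a' (E i) = a i := fun i => (Prod.mk.inj (hE i)).2
    have e1 : ∀ g : Fin (n + 1) → I, ∑ k, m' ((Equiv.arrowCongr (Equiv.refl (Fin (n + 1))) E) g k) =
        ∑ k, m (g k) := fun g => Finset.sum_congr rfl fun k _ => hE1 (g k)
    have e2 : ∀ g : Fin (n + 1) → I, ∑ k, a' ((Equiv.arrowCongr (Equiv.refl (Fin (n + 1))) E) g k) =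
        ∑ k, a (g k) := fun g => Finset.sum_congr rfl fun k _ => hE2 (g k)
    refine ⟨?_, fun k => ?_⟩
    · rw [(hAn n).inv, (hAn' n).inv]
      refine Nat.card_congr ((Equiv.arrowCongr (Equiv.refl (Fin (n + 1))) E).subtypeEquiv
        fun g => ?_)
      rw [e1, e2]
    · rw [(hAn n).ker, (hAn' n).ker]
      refine Nat.card_congr ((Equiv.arrowCongr (Equiv.refl (Fin (n + 1))) E).subtypeEquiv
        fun g => ?_)
      rw [e1, e2]

end Pool.Agent.Q60.DT
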