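import Pool.Agent.Q60.DT.Fam

/-!
# The numbers of words with sum 0 or 1 determine the family
-/

set_option autoImplicit false

open Filter Topology MeasureTheory

namespace Pool.Agent.Q60.DT

section complex

variable {I I' : Type*} [Fintype I] [Fintype I'] {m : I → ℕ} {a : I → ℤ} {m' : I' → ℕ}
  {a' : I' → ℤ}

/-- The trigonometric polynomial on the complex plane. -/
noncomputable def fnC (m : I → ℕ) (a : I → ℤ) (y : ℝ) (z : ℂ) : ℂ :=
  ∑ i, (y : ℂ) ^ m i * Complex.cos ((a i : ℂ) * z)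

/-- The change of variables on the complex plane. -/
noncomputable def φC (z : ℂ) : ℂ := (z + Complex.sin z) / 2

lemma fnC_ofReal (y θ : ℝ) : fnC m a y (θ : ℂ) = (fn m a y θ : ℂ) := by
  unfold fnC fn
  push_cast
  rfl

lemma φC_ofReal (θ : ℝ) : φC (θ : ℂ) = (φ θ : ℂ) := by
  unfold φC φ
  push_cast
  rfl

lemma fnC_diff (y : ℝ) : Differentiable ℂ (fnC m a y) := by
  unfold fnC
  fun_prop

lemma φC_diff : Differentiable ℂ φC := by
  unfold φC
  fun_prop

/-- The growth on the imaginary axis separates `fn ∘ φ` and `fn`. -/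
theorem no_mixed {y : ℝ} (hy : 0 < y) {i2 : I} (h2 : a i2 = 2)
    (h : (fun θ => fn m a y (φ θ)) =ᶠ[𝓝 0] fn m' a' y) : False := by
  -- the identity on the complex plane
  have hid : (fun z => fnC m a y (φC z)) = fnC m' a' y := by
    have hA : AnalyticOnNhd ℂ (fun z => fnC m a y (φC z)) Set.univ := fun z _ =>
      ((fnC_diff y).comp φC_diff).analyticAt z
    have hB : AnalyticOnNhd ℂ (fnC m' a' y) Set.univ := fun z _ => (fnC_diff y).analyticAt z
    refine AnalyticOnNhd.eq_of_frequently_eq (z₀ := 0) hA hB ?_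
    have h1 : Tendsto (fun θ : ℝ => (θ : ℂ)) (𝓝[≠] 0) (𝓝[≠] 0) := by
      rw [tendsto_nhdsWithin_iff]
      constructor
      · exact (Complex.continuous_ofReal.tendsto' 0 0 (by simp)).mono_left nhdsWithin_le_nhds
      · filter_upwards [self_mem_nhdsWithin] with θ hθ
        simpa using hθ
    have h3 : ∀ᶠ θ : ℝ in 𝓝[≠] (0 : ℝ), (fun z => fnC m a y (φC z)) (θ : ℂ) =
        fnC m' a' y (θ : ℂ) := by
      filter_upwards [h.filter_mono nhdsWithin_le_nhds] with θ hθ
      simp only [φC_ofReal, fnC_ofReal]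
      exact_mod_cast hθ
    exact h1.frequently h3.frequently
  -- the values on the imaginary axis
  have hval : ∀ t : ℝ, ∑ i, y ^ m i * Real.cosh (a i * ((t + Real.sinh t) / 2)) =
      ∑ i, y ^ m' i * Real.cosh (a' i * t) := by
    intro t
    have h3 := congrFun hid ((t : ℂ) * Complex.I)
    simp only [fnC, φC, Complex.sin_mul_I] at h3
    have h4 : ∀ i, Complex.cos ((a i : ℂ) * (((t : ℂ) * Complex.I + Complex.sinh t * Complex.I) /
        2)) = ((Real.cosh (a i * ((t + Real.sinh t) / 2)) : ℝ) : ℂ) := by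
      intro i
      rw [show (a i : ℂ) * (((t : ℂ) * Complex.I + Complex.sinh t * Complex.I) / 2) =
        ((a i * ((t + Real.sinh t) / 2) : ℝ) : ℂ) * Complex.I by push_cast; ring,
        Complex.cos_mul_I, Complex.ofReal_cosh]
    have h5 : ∀ i, Complex.cos ((a' i : ℂ) * ((t : ℂ) * Complex.I)) =
        ((Real.cosh (a' i * t) : ℝ) : ℂ) := by
      intro i
      rw [show (a' i : ℂ) * ((t : ℂ) * Complex.I) = ((a' i * t : ℝ) : ℂ) * Complex.I by
        push_cast; ring, Complex.cos_mul_I, Complex.ofReal_cosh]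
    simp only [h4, h5] at h3
    exact_mod_cast h3
  -- the estimates
  set K : ℝ := ∑ i, |(a' i : ℝ)| with hK
  set D : ℝ := ∑ i, y ^ m' i with hD
  have hK0 : 0 ≤ K := Finset.sum_nonneg fun i _ => abs_nonneg _
  have hup : ∀ t : ℝ, 0 ≤ t → ∑ i, y ^ m' i * Real.cosh (a' i * t) ≤ D * Real.exp (K * t) := by
    intro t ht
    rw [hD, Finset.sum_mul]
    refine Finset.sum_le_sum fun i _ => ?_
    have h3 : |(a' i : ℝ)| ≤ K := Finset.single_le_sum (f := fun i => |(a' i : ℝ)|)
      (fun i _ => abs_nonneg _) (Finset.mem_univ i)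
    have h4 : Real.cosh (a' i * t) ≤ Real.exp (K * t) := by
      rw [← Real.cosh_abs, abs_mul, abs_of_nonneg ht]
      have h5 : |(a' i : ℝ)| * t ≤ K * t := by gcongr
      have h6 : 0 ≤ |(a' i : ℝ)| * t := by positivity
      rw [Real.cosh_eq]
      have h7 : Real.exp (-(|(a' i : ℝ)| * t)) ≤ Real.exp (K * t) :=
        Real.exp_le_exp.2 (by linarith)
      have h8 : Real.exp (|(a' i : ℝ)| * t) ≤ Real.exp (K * t) := Real.exp_le_exp.2 h5
      linarith
    have h5 : 0 < y ^ m' i := pow_pos hy _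
    gcongr
  have hlow : ∀ t : ℝ, 0 ≤ t → y ^ m i2 * (Real.exp (t ^ 2 / 4) / 2) ≤
      ∑ i, y ^ m i * Real.cosh (a i * ((t + Real.sinh t) / 2)) := by
    intro t ht
    have h3 : y ^ m i2 * Real.cosh (a i2 * ((t + Real.sinh t) / 2)) ≤
        ∑ i, y ^ m i * Real.cosh (a i * ((t + Real.sinh t) / 2)) :=
      Finset.single_le_sum (f := fun i => y ^ m i * Real.cosh (a i * ((t + Real.sinh t) / 2)))
        (fun i _ => mul_nonneg (pow_pos hy _).le (Real.cosh_pos _).le) (Finset.mem_univ i2)
    refine le_trans ?_ h3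
    have h5 : 0 < y ^ m i2 := pow_pos hy _
    have h6 : t ^ 2 / 4 ≤ (a i2 : ℝ) * ((t + Real.sinh t) / 2) := by
      rw [h2, Real.sinh_eq]
      have h7 := Real.quadratic_le_exp_of_nonneg ht
      have h8 : Real.exp (-t) ≤ 1 := Real.exp_le_one_iff.2 (by linarith)
      push_cast
      nlinarith
    have h9 : Real.exp (t ^ 2 / 4) / 2 ≤ Real.cosh (a i2 * ((t + Real.sinh t) / 2)) := by
      rw [Real.cosh_eq]
      have := Real.exp_le_exp.2 h6
      have := Real.exp_pos (-((a i2 : ℝ) * ((t + Real.sinh t) / 2)))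
      linarith
    gcongr
  set t : ℝ := 4 * (K + 1) + 2 * D / y ^ m i2 with ht
  have hD0 : 0 ≤ D := Finset.sum_nonneg fun i _ => (pow_pos hy _).le
  have hyp : 0 < y ^ m i2 := pow_pos hy _
  have hq : 0 ≤ 2 * D / y ^ m i2 := by positivity
  have ht0 : 0 ≤ t := by rw [ht]; positivity
  have h10 := (hlow t ht0).trans ((hval t).le.trans (hup t ht0))
  have h11 : t + K * t ≤ t ^ 2 / 4 := by
    have : 4 * (K + 1) ≤ t := by rw [ht]; linarith
    nlinarith
  have h12 : Real.exp t * Real.exp (K * t) ≤ Real.exp (t ^ 2 / 4) := by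
    rw [← Real.exp_add]
    exact Real.exp_le_exp.2 h11
  have h13 : y ^ m i2 * (Real.exp t * Real.exp (K * t) / 2) ≤ D * Real.exp (K * t) :=
    le_trans (by gcongr) h10
  have h14 : y ^ m i2 * Real.exp t ≤ 2 * D := by
    have := Real.exp_pos (K * t)
    have h15 : (y ^ m i2 * Real.exp t) * Real.exp (K * t) ≤ (2 * D) * Real.exp (K * t) := by
      linarith
    exact le_of_mul_le_mul_right h15 this
  have h15 := Real.add_one_le_exp t
  have h16 : 2 * D / y ^ m i2 < Real.exp t := by
    have : 2 * D / y ^ m i2 ≤ t := by rw [ht]; linarith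
    linarith
  rw [div_lt_iff₀ hyp] at h16
  linarith

end complex

section

variable {I I' : Type*} [Fintype I] [Fintype I'] {m : I → ℕ} {a : I → ℤ} {m' : I' → ℕ}
  {a' : I' → ℤ}

/-- A function with the moments of the family. -/
structure Represents (m : I → ℕ) (a : I → ℤ) (y : ℝ) (F : ℝ → ℝ) : Prop where
  cont : Continuous F
  analytic : AnalyticAt ℝ F 0
  zero : F 0 = ∑ i, y ^ m i
  lt : ∀ θ, 0 < θ → θ ≤ Real.pi → |F θ| < ∑ i, y ^ m i
  moments : ∀ n, ∫ θ in (0 : ℝ)..Real.pi, F θ ^ n * wt θ = Real.pi * cnt m a y n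

lemma cos_lt_one {x : ℝ} (h0 : 0 < x) (h1 : x < 2 * Real.pi) : Real.cos x < 1 := by
  refine lt_of_le_of_ne (Real.cos_le_one x) fun h => ?_
  rw [Real.cos_eq_one_iff_of_lt_of_lt (by linarith) h1] at h
  linarith

lemma represents_one (H : IsFam m a) {y : ℝ} (hy : 0 < y) {i1 : I} (h1 : a i1 = 1) :
    Represents m a y (fn m a y) where
  cont := fn_cont y
  analytic := fn_analytic y 0
  zero := fn_zero y
  lt := by
    intro θ h2 h3
    obtain ⟨i0, -, h0⟩ := H.unit
    refine abs_fn_lt hy h0 (i1 := i1) ?_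
    rw [h1]
    push_cast
    rw [one_mul]
    exact cos_lt_one h2 (by linarith [Real.pi_pos])
  moments := moment H.sym y

lemma represents_even (H : IsFam m a) {y : ℝ} (hy : 0 < y) (he : ∀ i, Even (a i)) {i2 : I}
    (h2 : a i2 = 2) : Represents m a y (fun θ => fn m a y (φ θ)) where
  cont := (fn_cont y).comp φ_cont
  analytic := (fn_analytic y _).comp (φ_analytic 0)
  zero := by simp only [φ_zero, fn_zero]
  lt := by
    intro θ h3 h4
    obtain ⟨i0, -, h0⟩ := H.unit
    obtain ⟨h5, h6⟩ := φ_bounds h3 h4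
    refine abs_fn_lt hy h0 (i1 := i2) ?_
    rw [h2]
    push_cast
    exact cos_lt_one (by linarith) (by linarith)
  moments := moment_even H.sym he y

lemma cnt_zero (h : ∀ i, a i = 0) (y : ℝ) (n : ℕ) : cnt m a y n = (∑ i, y ^ m i) ^ n := by
  unfold cnt
  rw [Fintype.sum_pow]
  refine Finset.sum_congr rfl fun g _ => ?_
  rw [if_pos (Or.inl (Finset.sum_eq_zero fun k _ => h _)), Finset.prod_pow_eq_pow_sum]

lemma Represents.cnt_lt {y : ℝ} {F : ℝ → ℝ} (H : Represents m a y F) {n : ℕ} (hn : 1 ≤ n) :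
    cnt m a y n < (∑ i, y ^ m i) ^ n := by
  have hπ := Real.pi_pos
  set D := ∑ i, y ^ m i
  have h1 : ∫ θ in (0 : ℝ)..Real.pi, F θ ^ n * wt θ < ∫ θ in (0 : ℝ)..Real.pi, D ^ n * wt θ := by
    refine intervalIntegral.integral_lt_integral_of_continuousOn_of_le_of_exists_lt hπ
      ((H.cont.pow n).mul wt_cont).continuousOn (continuousOn_const.mul wt_cont.continuousOn)
      (fun θ hθ => ?_) ⟨Real.pi / 2, ⟨by linarith, by linarith⟩, ?_⟩
    · refine mul_le_mul_of_nonneg_right ?_ (wt_nonneg θ)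
      have h2 := (H.lt θ hθ.1 hθ.2).le
      calc F θ ^ n ≤ |F θ| ^ n := by
            rw [← abs_pow]
            exact le_abs_self _
        _ ≤ D ^ n := pow_le_pow_left₀ (abs_nonneg _) h2 n
    · refine mul_lt_mul_of_pos_right ?_ (wt_pos (by linarith) (by linarith))
      have h2 := H.lt (Real.pi / 2) (by linarith) (by linarith)
      calc F (Real.pi / 2) ^ n ≤ |F (Real.pi / 2)| ^ n := by
            rw [← abs_pow]
            exact le_abs_self _
        _ < D ^ n := pow_lt_pow_left₀ h2 (abs_nonneg _) (by omega)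
  have h2 : ∫ θ in (0 : ℝ)..Real.pi, D ^ n * wt θ = Real.pi * D ^ n := by
    have h3 : ∫ θ in (0 : ℝ)..Real.pi, wt θ = Real.pi := by
      unfold wt
      rw [intervalIntegral.integral_add (by simp) (Real.continuous_cos.intervalIntegrable _ _),
        integral_cos]
      simp
    rw [intervalIntegral.integral_const_mul, h3, mul_comm]
  rw [H.moments, h2] at h1
  exact lt_of_mul_lt_mul_left h1 hπ.le

/-- Real analytic functions which agree near a point agree. -/
lemma eq_of_near {F G : ℝ → ℝ} (hF : ∀ θ, AnalyticAt ℝ F θ) (hG : ∀ θ, AnalyticAt ℝ G θ) {x : ℝ}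
    (h : F =ᶠ[𝓝 x] G) : F = G :=
  AnalyticOnNhd.eq_of_eventuallyEq (z₀ := x) (fun θ _ => hF θ) (fun θ _ => hG θ) h

/-- **Infinitely many counts determine the trigonometric polynomial.** -/
theorem fn_eq (H : IsFam m a) (H' : IsFam m' a') {y : ℝ} (hy : 0 < y)
    (hD : ∑ i, y ^ m i = ∑ i, y ^ m' i)
    (h : ∃ᶠ n : ℕ in atTop, cnt m a y n = cnt m' a' y n) : fn m a y = fn m' a' y := by
  have hDpos : 0 < ∑ i, y ^ m i := by
    obtain ⟨i0, -, -⟩ := H.unit
    exact Finset.sum_pos (fun i _ => pow_pos hy _) ⟨i0, Finset.mem_univ _⟩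
  have key : ∀ {F G : ℝ → ℝ}, Represents m a y F → Represents m' a' y G → F =ᶠ[𝓝 0] G := by
    intro F G hF hG
    refine eq_of_moments hF.cont hG.cont hF.analytic hG.analytic hF.zero
      (hG.zero.trans hD.symm) hDpos hF.lt (fun θ h1 h2 => hD ▸ hG.lt θ h1 h2) (h.mono fun n hn => ?_)
    rw [hF.moments, hG.moments, hn]
  obtain ⟨n, hn, hn1⟩ := (h.and_eventually (eventually_ge_atTop 1)).exists
  rcases H.kind with h0 | ⟨he, i2, h2⟩ | ⟨i1, h1⟩
  · rcases H'.kind with h0' | ⟨he', i2', h2'⟩ | ⟨i1', h1'⟩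
    · funext θ
      unfold fn
      simp only [h0, h0', Int.cast_zero, zero_mul, Real.cos_zero, mul_one]
      exact hD
    · exfalso
      have h3 := (represents_even H' hy he' h2').cnt_lt hn1
      rw [← hn, cnt_zero h0, hD] at h3
      exact lt_irrefl _ h3
    · exfalso
      have h3 := (represents_one H' hy h1').cnt_lt hn1
      rw [← hn, cnt_zero h0, hD] at h3
      exact lt_irrefl _ h3
  · rcases H'.kind with h0' | ⟨he', i2', h2'⟩ | ⟨i1', h1'⟩
    · exfalso
      have h3 := (represents_even H hy he h2).cnt_lt hn1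
      rw [hn, cnt_zero h0', hD] at h3
      exact lt_irrefl _ h3
    · have h3 := key (represents_even H hy he h2) (represents_even H' hy he' h2')
      have h4 : (fun θ => fn m a y (φ θ)) = fun θ => fn m' a' y (φ θ) :=
        eq_of_near (fun θ => (fn_analytic y _).comp (φ_analytic θ))
          (fun θ => (fn_analytic y _).comp (φ_analytic θ)) h3
      refine eq_of_near (x := Real.pi / 4) (fn_analytic y) (fn_analytic y) ?_
      have hπ := Real.pi_pos
      have h5 : Set.Icc 0 (Real.pi / 2) ∈ 𝓝 (Real.pi / 4) :=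
        Icc_mem_nhds (by linarith) (by linarith)
      filter_upwards [h5] with u hu
      obtain ⟨θ, -, hθ⟩ := intermediate_value_Icc hπ.le φ_cont.continuousOn
        (show u ∈ Set.Icc (φ 0) (φ Real.pi) by rwa [φ_zero, φ_pi])
      have h6 := congrFun h4 θ
      simp only [hθ] at h6
      exact h6
    · exact (no_mixed hy h2 (key (represents_even H hy he h2) (represents_one H' hy h1'))).elim
  · rcases H'.kind with h0' | ⟨he', i2', h2'⟩ | ⟨i1', h1'⟩
    · exfalso
      have h3 := (represents_one H hy h1).cnt_lt hn1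
      rw [hn, cnt_zero h0', hD] at h3
      exact lt_irrefl _ h3
    · exact (no_mixed hy h2' (key (represents_one H hy h1)
        (represents_even H' hy he' h2')).symm).elim
    · exact eq_of_near (fn_analytic y) (fn_analytic y)
        (key (represents_one H hy h1) (represents_one H' hy h1'))

/-- Two families with the same numbers of occurrences differ by a bijection. -/
lemma exists_equiv {I J κ : Type*} [Finite I] [Finite J] (f : I → κ) (g : J → κ)
    (h : ∀ r, Nat.card {i // f i = r} = Nat.card {j // g j = r}) :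
    ∃ E : I ≃ J, ∀ i, g (E i) = f i := by
  have h1 : ∀ r, Nonempty ({i // f i = r} ≃ {j // g j = r}) := fun r => by
    rw [← Finite.card_eq]
    exact h r
  let E : ∀ r, {i // f i = r} ≃ {j // g j = r} := fun r => (h1 r).some
  refine ⟨(Equiv.sigmaFiberEquiv f).symm.trans
    ((Equiv.sigmaCongrRight E).trans (Equiv.sigmaFiberEquiv g)), fun i => ?_⟩
  exact (E (f i) ⟨i, rfl⟩).2

/-- The number of the words of length `n` with degree `j` and sum `0` or `1`. -/
noncomputable def wds {I : Type*} (m : I → ℕ) (a : I → ℤ) (n j : ℕ) : ℕ :=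
  Nat.card {g : Fin n → I // (∑ k, a (g k) = 0 ∨ ∑ k, a (g k) = 1) ∧ ∑ k, m (g k) = j}

lemma cnt_eq_of_wds {n : ℕ} (h : ∀ j, wds m a n j = wds m' a' n j) (y : ℝ) :
    cnt m a y n = cnt m' a' y n := by
  classical
  have key : ∀ {I : Type _} [Fintype I] (m : I → ℕ) (a : I → ℤ), cnt m a y n =
      ∑ g : {g : Fin n → I // ∑ k, a (g k) = 0 ∨ ∑ k, a (g k) = 1}, y ^ (∑ k, m (g.1 k)) := by
    intro I _ m a
    unfold cnt
    rw [← Finset.sum_filter]
    exact (Finset.sum_subtype _ (fun g => by simp) _)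
  have key' : ∀ {I : Type _} [Fintype I] (m : I → ℕ) (a : I → ℤ), cnt m a y n =
      ∑ g : {g : Fin n → I // ∑ k, a (g k) = 0 ∨ ∑ k, a (g k) = 1}, y ^ (∑ k, m (g.1 k)) := by
    intro I _ m a
    unfold cnt
    rw [← Finset.sum_filter]
    exact (Finset.sum_subtype _ (fun g => by simp) _)
  rw [key, key']
  have h1 : ∀ j, Nat.card {g : {g : Fin n → I // ∑ k, a (g k) = 0 ∨ ∑ k, a (g k) = 1} //
      ∑ k, m (g.1 k) = j} = Nat.card {g : {g : Fin n → I' // ∑ k, a' (g k) = 0 ∨
      ∑ k, a' (g k) = 1} // ∑ k, m' (g.1 k) = j} := by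
    intro j
    rw [Nat.card_congr (Equiv.subtypeSubtypeEquivSubtypeInter
      (fun g : Fin n → I => ∑ k, a (g k) = 0 ∨ ∑ k, a (g k) = 1) (fun g => ∑ k, m (g k) = j)),
      Nat.card_congr (Equiv.subtypeSubtypeEquivSubtypeInter
      (fun g : Fin n → I' => ∑ k, a' (g k) = 0 ∨ ∑ k, a' (g k) = 1)
      (fun g => ∑ k, m' (g k) = j))]
    exact h j
  obtain ⟨E, hE⟩ := exists_equiv _ _ h1
  rw [← Equiv.sum_comp E]
  refine Finset.sum_congr rfl fun g _ => ?_
  rw [hE]

/-- **The numbers of the words with sum `0` or `1` determine the family.** -/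
theorem determine (H : IsFam m a) (H' : IsFam m' a')
    (hdim : ∀ j, Nat.card {i // m i = j} = Nat.card {i // m' i = j})
    (h : ∃ᶠ n : ℕ in atTop, ∀ j, wds m a n j = wds m' a' n j) (j : ℕ) (r : ℤ) :
    Nat.card {i // m i = j ∧ a i = r} = Nat.card {i // m' i = j ∧ a' i = r} := by
  classical
  have hD : ∀ y : ℝ, ∑ i, y ^ m i = ∑ i, y ^ m' i := by
    intro y
    obtain ⟨E, hE⟩ := exists_equiv _ _ hdim
    rw [← Equiv.sum_comp E]
    exact Finset.sum_congr rfl fun i _ => by rw [hE]
  have h1 : ∀ y : ℝ, 0 < y → (∑ i, if a i = r then y ^ m i else 0) =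
      ∑ i, if a' i = r then y ^ m' i else 0 := by
    intro y hy
    have h2 := fn_eq H H' hy (hD y) (h.mono fun n hn => cnt_eq_of_wds hn y)
    have h3 := extract H.sym y r
    have h4 := extract H'.sym y r
    rw [h2, h4] at h3
    exact (mul_left_cancel₀ Real.pi_pos.ne' h3).symm
  -- polynomials
  let p : Polynomial ℝ := ∑ i, if a i = r then Polynomial.X ^ m i else 0
  let p' : Polynomial ℝ := ∑ i, if a' i = r then Polynomial.X ^ m' i else 0
  have hp : ∀ y : ℝ, p.eval y = ∑ i, if a i = r then y ^ m i else 0 := by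
    intro y
    rw [Polynomial.eval_finsetSum]
    refine Finset.sum_congr rfl fun i _ => ?_
    split_ifs <;> simp
  have hp' : ∀ y : ℝ, p'.eval y = ∑ i, if a' i = r then y ^ m' i else 0 := by
    intro y
    rw [Polynomial.eval_finsetSum]
    refine Finset.sum_congr rfl fun i _ => ?_
    split_ifs <;> simp
  have hpp : p = p' := by
    refine Polynomial.eq_of_infinite_eval_eq p p' ((Set.Ioi_infinite (0 : ℝ)).mono fun y hy => ?_)
    show p.eval y = p'.eval y
    rw [hp, hp']
    exact h1 y hy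
  have hc : p.coeff j = Nat.card {i // m i = j ∧ a i = r} := by
    rw [Polynomial.finsetSum_coeff, Nat.card_eq_fintype_card, Fintype.card_subtype,
      Finset.card_filter]
    push_cast
    refine Finset.sum_congr rfl fun i _ => ?_
    by_cases h5 : a i = r
    · by_cases h6 : m i = j
      · simp [h5, h6]
      · simp [h5, h6, Polynomial.coeff_X_pow, Ne.symm h6]
    · simp [h5]
  have hc' : p'.coeff j = Nat.card {i // m' i = j ∧ a' i = r} := by
    rw [Polynomial.finsetSum_coeff, Nat.card_eq_fintype_card, Fintype.card_subtype,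
      Finset.card_filter]
    push_cast
    refine Finset.sum_congr rfl fun i _ => ?_
    by_cases h5 : a' i = r
    · by_cases h6 : m' i = j
      · simp [h5, h6]
      · simp [h5, h6, Polynomial.coeff_X_pow, Ne.symm h6]
    · simp [h5]
  rw [hpp, hc'] at hc
  exact_mod_cast hc.symm

end

end Pool.Agent.Q60.DT
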