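import Pool.Agent.Q60.DT.An

/-!
# Families of weights: the words with sum 0 or 1 determine the family
-/

set_option autoImplicit false

open Filter Topology MeasureTheory

namespace Pool.Agent.Q60.DT

section

variable {I : Type*} [Fintype I] (m : I → ℕ) (a : I → ℤ)

/-- The trigonometric polynomial of the family. -/
noncomputable def fn (y θ : ℝ) : ℝ := ∑ i, y ^ m i * Real.cos (a i * θ)

/-- The weighted number of the words of length `n` with sum `0` or `1`. -/
noncomputable def cnt (y : ℝ) (n : ℕ) : ℝ :=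
  ∑ g : Fin n → I, if (∑ k, a (g k) = 0 ∨ ∑ k, a (g k) = 1) then y ^ (∑ k, m (g k)) else 0

/-- The properties of the families of the weights for `sl(2)`. -/
structure IsFam {I : Type*} (m : I → ℕ) (a : I → ℤ) : Prop where
  sym : ∃ σ : I ≃ I, ∀ i, m (σ i) = m i ∧ a (σ i) = -a i
  unit : ∃ i, m i = 0 ∧ a i = 0
  kind : (∀ i, a i = 0) ∨ ((∀ i, Even (a i)) ∧ ∃ i, a i = 2) ∨ ∃ i, a i = 1

variable {m a}

lemma fn_cont (y : ℝ) : Continuous (fn m a y) := by unfold fn; fun_prop

lemma cos_analytic (c θ : ℝ) : AnalyticAt ℝ (fun θ : ℝ => Real.cos (c * θ)) θ :=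
  (Real.analyticAt_cos).comp (analyticAt_const.mul analyticAt_id)

lemma fn_analytic (y θ : ℝ) : AnalyticAt ℝ (fn m a y) θ := by
  unfold fn
  exact Finset.analyticAt_fun_sum _ fun i _ => analyticAt_const.mul (cos_analytic _ _)

/-- The integral of `cos (k θ)`. -/
lemma int_cos (k : ℤ) : ∫ θ in (0 : ℝ)..Real.pi, Real.cos (k * θ) =
    if k = 0 then Real.pi else 0 := by
  split_ifs with h
  · subst h
    simp
  · have hk : (k : ℝ) ≠ 0 := by exact_mod_cast h
    rw [intervalIntegral.integral_comp_mul_left (fun x => Real.cos x) hk, integral_cos]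
    simp [Real.sin_int_mul_pi]

lemma int_cos_cos (k r : ℤ) : ∫ θ in (0 : ℝ)..Real.pi, Real.cos (k * θ) * Real.cos (r * θ) =
    ((if k = -r then Real.pi else 0) + (if k = r then Real.pi else 0)) / 2 := by
  have h1 : ∀ θ : ℝ, Real.cos (k * θ) * Real.cos (r * θ) =
      (Real.cos ((k + r : ℤ) * θ) + Real.cos ((k - r : ℤ) * θ)) / 2 := by
    intro θ
    push_cast
    rw [add_mul, sub_mul, Real.cos_add, Real.cos_sub]
    ring
  have h2 : ∀ k : ℤ, IntervalIntegrable (fun θ : ℝ => Real.cos (k * θ)) volume 0 Real.pi :=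
    fun k => (by fun_prop : Continuous fun θ : ℝ => Real.cos (k * θ)).intervalIntegrable _ _
  rw [intervalIntegral.integral_congr (fun θ _ => h1 θ), intervalIntegral.integral_div,
    intervalIntegral.integral_add (h2 _) (h2 _), int_cos, int_cos]
  congr 3
  · simp only [eq_iff_iff]
    omega
  · simp only [eq_iff_iff]
    omega

lemma int_cos_wt (k : ℤ) : ∫ θ in (0 : ℝ)..Real.pi, Real.cos (k * θ) * wt θ =
    ((if k = 0 ∨ k = 1 then Real.pi else 0) + (if -k = 0 ∨ -k = 1 then Real.pi else 0)) / 2 := by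
  have h1 : ∀ θ : ℝ, Real.cos (k * θ) * wt θ =
      Real.cos (k * θ) + Real.cos (k * θ) * Real.cos ((1 : ℤ) * θ) := by
    intro θ
    unfold wt
    push_cast
    ring_nf
  rw [intervalIntegral.integral_congr (fun θ _ => h1 θ), intervalIntegral.integral_add
    ((by fun_prop : Continuous fun θ : ℝ => Real.cos (k * θ)).intervalIntegrable _ _)
    ((by fun_prop : Continuous fun θ : ℝ => Real.cos (k * θ) *
      Real.cos ((1 : ℤ) * θ)).intervalIntegrable _ _), int_cos, int_cos_cos]
  by_cases h0 : k = 0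
  · subst h0
    norm_num
  by_cases h1 : k = 1
  · subst h1
    norm_num
  by_cases h2 : k = -1
  · subst h2
    norm_num
  · have h3 : ¬ (-k = 1) := by omega
    simp [h0, h1, h2, h3]

/-- The powers of the trigonometric polynomial. -/
lemma fn_pow (hs : ∃ σ : I ≃ I, ∀ i, m (σ i) = m i ∧ a (σ i) = -a i) (y θ : ℝ) (n : ℕ) :
    fn m a y θ ^ n = ∑ g : Fin n → I, y ^ (∑ k, m (g k)) *
      Real.cos ((∑ k, a (g k) : ℤ) * θ) := by
  obtain ⟨σ, hσ⟩ := hs
  set E : ℂ := ∑ i, ((y ^ m i : ℝ) : ℂ) * Complex.exp (((a i * θ : ℝ) : ℂ) * Complex.I) with hE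
  have h1 : E = (fn m a y θ : ℂ) := by
    apply Complex.ext
    · rw [hE, Complex.re_sum, Complex.ofReal_re]
      unfold fn
      refine Finset.sum_congr rfl fun i _ => ?_
      rw [Complex.re_ofReal_mul, Complex.exp_ofReal_mul_I_re]
    · rw [hE, Complex.im_sum, Complex.ofReal_im]
      have h2 : ∑ i, (((y ^ m i : ℝ) : ℂ) * Complex.exp (((a i * θ : ℝ) : ℂ) * Complex.I)).im =
          ∑ i, y ^ m i * Real.sin (a i * θ) := by
        refine Finset.sum_congr rfl fun i _ => ?_
        rw [Complex.im_ofReal_mul, Complex.exp_ofReal_mul_I_im]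
      rw [h2]
      have h3 : ∑ i, y ^ m i * Real.sin (a i * θ) = -∑ i, y ^ m i * Real.sin (a i * θ) := by
        conv_lhs => rw [← Equiv.sum_comp σ]
        rw [← Finset.sum_neg_distrib]
        refine Finset.sum_congr rfl fun i _ => ?_
        rw [(hσ i).1, (hσ i).2]
        push_cast
        rw [neg_mul, Real.sin_neg]
        ring
      linarith
  have h2 : (fn m a y θ ^ n : ℝ) = (E ^ n).re := by
    rw [h1, ← Complex.ofReal_pow, Complex.ofReal_re]
  rw [h2, hE, Fintype.sum_pow, Complex.re_sum]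
  refine Finset.sum_congr rfl fun g _ => ?_
  rw [Finset.prod_mul_distrib, ← Complex.exp_sum, ← Finset.sum_mul, ← Complex.ofReal_prod,
    ← Complex.ofReal_sum, Complex.re_ofReal_mul, Complex.exp_ofReal_mul_I_re, Finset.prod_pow_eq_pow_sum,
    ← Finset.sum_mul]
  push_cast
  rfl

/-- The moments. -/
theorem moment (hs : ∃ σ : I ≃ I, ∀ i, m (σ i) = m i ∧ a (σ i) = -a i) (y : ℝ) (n : ℕ) :
    ∫ θ in (0 : ℝ)..Real.pi, fn m a y θ ^ n * wt θ = Real.pi * cnt m a y n := by
  classical
  have h1 : ∀ θ : ℝ, fn m a y θ ^ n * wt θ = ∑ g : Fin n → I, y ^ (∑ k, m (g k)) *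
      (Real.cos ((∑ k, a (g k) : ℤ) * θ) * wt θ) := by
    intro θ
    rw [fn_pow hs, Finset.sum_mul]
    exact Finset.sum_congr rfl fun g _ => mul_assoc _ _ _
  have h2 : ∀ k : ℤ, IntervalIntegrable (fun θ : ℝ => Real.cos (k * θ) * wt θ)
      volume 0 Real.pi := fun k =>
    ((by fun_prop : Continuous fun θ : ℝ => Real.cos (k * θ)).mul wt_cont).intervalIntegrable _ _
  rw [intervalIntegral.integral_congr (fun θ _ => h1 θ),
    intervalIntegral.integral_finsetSum (fun g _ => (h2 _).const_mul _)]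
  have h3 : ∀ g : Fin n → I, ∫ θ in (0 : ℝ)..Real.pi, y ^ (∑ k, m (g k)) *
      (Real.cos ((∑ k, a (g k) : ℤ) * θ) * wt θ) =
      (y ^ (∑ k, m (g k)) * (if (∑ k, a (g k) = 0 ∨ ∑ k, a (g k) = 1) then Real.pi else 0) +
      y ^ (∑ k, m (g k)) * (if (-∑ k, a (g k) = 0 ∨ -∑ k, a (g k) = 1) then Real.pi else 0)) /
        2 := by
    intro g
    rw [intervalIntegral.integral_const_mul, int_cos_wt]
    ring
  rw [Finset.sum_congr rfl fun g _ => h3 g, ← Finset.sum_div, Finset.sum_add_distrib]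
  have h4 : ∑ g : Fin n → I, y ^ (∑ k, m (g k)) *
      (if (-∑ k, a (g k) = 0 ∨ -∑ k, a (g k) = 1) then Real.pi else 0) =
      ∑ g : Fin n → I, y ^ (∑ k, m (g k)) *
      (if (∑ k, a (g k) = 0 ∨ ∑ k, a (g k) = 1) then Real.pi else 0) := by
    obtain ⟨σ, hσ⟩ := hs
    rw [← Equiv.sum_comp (Equiv.arrowCongr (Equiv.refl (Fin n)) σ)]
    refine Finset.sum_congr rfl fun g _ => ?_
    have e1 : ∀ k, m ((Equiv.arrowCongr (Equiv.refl (Fin n)) σ) g k) = m (g k) := fun k =>
      (hσ (g k)).1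
    have e2 : ∀ k, a ((Equiv.arrowCongr (Equiv.refl (Fin n)) σ) g k) = -a (g k) := fun k =>
      (hσ (g k)).2
    rw [Finset.sum_congr rfl fun k _ => e1 k, Finset.sum_congr rfl fun k _ => e2 k,
      Finset.sum_neg_distrib, neg_neg]
  rw [h4, ← two_mul, mul_div_cancel_left₀ _ two_ne_zero]
  unfold cnt
  rw [Finset.mul_sum]
  refine Finset.sum_congr rfl fun g _ => ?_
  split_ifs <;> ring

/-- The coefficients. -/
theorem extract (hs : ∃ σ : I ≃ I, ∀ i, m (σ i) = m i ∧ a (σ i) = -a i) (y : ℝ) (r : ℤ) :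
    ∫ θ in (0 : ℝ)..Real.pi, fn m a y θ * Real.cos (r * θ) =
      Real.pi * ∑ i, if a i = r then y ^ m i else 0 := by
  classical
  have h1 : ∀ θ : ℝ, fn m a y θ * Real.cos (r * θ) = ∑ i, y ^ m i *
      (Real.cos (a i * θ) * Real.cos (r * θ)) := by
    intro θ
    unfold fn
    rw [Finset.sum_mul]
    exact Finset.sum_congr rfl fun g _ => mul_assoc _ _ _
  have h2 : ∀ k : ℤ, IntervalIntegrable (fun θ : ℝ => Real.cos (k * θ) * Real.cos (r * θ))
      volume 0 Real.pi := fun k =>
    (by fun_prop : Continuous fun θ : ℝ => Real.cos (k * θ) *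
      Real.cos (r * θ)).intervalIntegrable _ _
  rw [intervalIntegral.integral_congr (fun θ _ => h1 θ),
    intervalIntegral.integral_finsetSum (fun g _ => (h2 _).const_mul _)]
  have h3 : ∀ i, ∫ θ in (0 : ℝ)..Real.pi, y ^ m i * (Real.cos (a i * θ) * Real.cos (r * θ)) =
      (y ^ m i * (if a i = -r then Real.pi else 0) +
      y ^ m i * (if a i = r then Real.pi else 0)) / 2 := by
    intro i
    rw [intervalIntegral.integral_const_mul, int_cos_cos]
    ring
  rw [Finset.sum_congr rfl fun g _ => h3 g, ← Finset.sum_div, Finset.sum_add_distrib]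
  have h4 : ∑ i, y ^ m i * (if a i = -r then Real.pi else 0) =
      ∑ i, y ^ m i * (if a i = r then Real.pi else 0) := by
    obtain ⟨σ, hσ⟩ := hs
    rw [← Equiv.sum_comp σ]
    refine Finset.sum_congr rfl fun i _ => ?_
    rw [(hσ i).1, (hσ i).2]
    congr 2
    simp only [eq_iff_iff]
    omega
  rw [h4, ← two_mul, mul_div_cancel_left₀ _ two_ne_zero, Finset.mul_sum]
  refine Finset.sum_congr rfl fun i _ => ?_
  split_ifs <;> ring

lemma fn_zero (y : ℝ) : fn m a y 0 = ∑ i, y ^ m i := by simp [fn]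

/-- The strict maximum. -/
lemma abs_fn_lt {y : ℝ} (hy : 0 < y) {i0 i1 : I} (h0 : a i0 = 0) {θ : ℝ}
    (h1 : Real.cos (a i1 * θ) < 1) : |fn m a y θ| < ∑ i, y ^ m i := by
  classical
  rw [abs_lt]
  constructor
  · rw [← Finset.sum_neg_distrib]
    unfold fn
    refine Finset.sum_lt_sum (fun i _ => ?_) ⟨i0, Finset.mem_univ _, ?_⟩
    · have := Real.neg_one_le_cos (a i * θ)
      have h2 : 0 < y ^ m i := pow_pos hy _
      nlinarith
    · rw [h0]
      have h2 : 0 < y ^ m i0 := pow_pos hy _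
      simp only [Int.cast_zero, zero_mul, Real.cos_zero, mul_one]
      linarith
  · unfold fn
    refine Finset.sum_lt_sum (fun i _ => ?_) ⟨i1, Finset.mem_univ _, ?_⟩
    · have := Real.cos_le_one (a i * θ)
      have h2 : 0 < y ^ m i := pow_pos hy _
      nlinarith
    · have h2 : 0 < y ^ m i1 := pow_pos hy _
      nlinarith

end

/-- The change of variables. -/
noncomputable def φ (θ : ℝ) : ℝ := (θ + Real.sin θ) / 2

lemma φ_cont : Continuous φ := by unfold φ; fun_prop

lemma φ_zero : φ 0 = 0 := by simp [φ]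

lemma φ_pi : φ Real.pi = Real.pi / 2 := by simp [φ]

lemma φ_deriv (θ : ℝ) : HasDerivAt φ (wt θ / 2) θ :=
  ((hasDerivAt_id θ).add (Real.hasDerivAt_sin θ)).div_const 2

lemma φ_analytic (θ : ℝ) : AnalyticAt ℝ φ θ :=
  (analyticAt_id.add Real.analyticAt_sin).div analyticAt_const (by norm_num)

lemma φ_bounds {θ : ℝ} (h0 : 0 < θ) (h1 : θ ≤ Real.pi) : 0 < φ θ ∧ φ θ < Real.pi := by
  have h2 : 0 ≤ Real.sin θ := Real.sin_nonneg_of_nonneg_of_le_pi h0.le h1
  have h3 : Real.sin θ < θ := Real.sin_lt h0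
  unfold φ
  constructor <;> linarith

section even

variable {I : Type*} [Fintype I] {m : I → ℕ} {a : I → ℤ}

lemma fn_reflect (h : ∀ i, Even (a i)) (y θ : ℝ) : fn m a y (Real.pi - θ) = fn m a y θ := by
  unfold fn
  refine Finset.sum_congr rfl fun i _ => ?_
  obtain ⟨c, hc⟩ := h i
  congr 1
  rw [hc]
  push_cast
  rw [show ((c : ℝ) + c) * (Real.pi - θ) = (c : ℝ) * (2 * Real.pi) - ((c : ℝ) + c) * θ by ring,
    Real.cos_int_mul_two_pi_sub]

/-- The moments in the even case. -/
theorem moment_even (hs : ∃ σ : I ≃ I, ∀ i, m (σ i) = m i ∧ a (σ i) = -a i)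
    (h : ∀ i, Even (a i)) (y : ℝ) (n : ℕ) :
    ∫ θ in (0 : ℝ)..Real.pi, fn m a y (φ θ) ^ n * wt θ = Real.pi * cnt m a y n := by
  rw [← moment hs]
  have hc : Continuous fun θ => fn m a y θ ^ n := (fn_cont y).pow n
  -- the substitution
  have h1 : ∫ θ in (0 : ℝ)..Real.pi, fn m a y (φ θ) ^ n * (wt θ / 2) =
      ∫ u in (0 : ℝ)..(Real.pi / 2), fn m a y u ^ n := by
    have := intervalIntegral.integral_comp_mul_deriv (a := 0) (b := Real.pi) (f := φ)
      (f' := fun θ => wt θ / 2) (g := fun u => fn m a y u ^ n) (fun θ _ => φ_deriv θ)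
      ((wt_cont.div_const 2).continuousOn) hc
    rw [φ_zero, φ_pi] at this
    exact this
  -- the two halves
  have h2 : ∫ u in (Real.pi / 2)..Real.pi, fn m a y u ^ n =
      ∫ u in (0 : ℝ)..(Real.pi / 2), fn m a y u ^ n := by
    have h3 := intervalIntegral.integral_comp_sub_left (a := 0) (b := Real.pi / 2)
      (fun u => fn m a y u ^ n) Real.pi
    rw [sub_zero, show Real.pi - Real.pi / 2 = Real.pi / 2 by ring] at h3
    rw [← h3]
    exact intervalIntegral.integral_congr fun u _ => by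
      simp only [fn_reflect h]
  -- the cosine part
  have h4 : ∫ u in (0 : ℝ)..Real.pi, fn m a y u ^ n * Real.cos u = 0 := by
    have h5 := intervalIntegral.integral_comp_sub_left (a := 0) (b := Real.pi)
      (fun u => fn m a y u ^ n * Real.cos u) Real.pi
    rw [sub_zero, sub_self] at h5
    have h6 : ∫ u in (0 : ℝ)..Real.pi, fn m a y (Real.pi - u) ^ n * Real.cos (Real.pi - u) =
        -∫ u in (0 : ℝ)..Real.pi, fn m a y u ^ n * Real.cos u := by
      rw [← intervalIntegral.integral_neg]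
      refine intervalIntegral.integral_congr fun u _ => ?_
      simp only [fn_reflect h, Real.cos_pi_sub]
      ring
    linarith
  have h7 : ∫ θ in (0 : ℝ)..Real.pi, fn m a y θ ^ n * wt θ =
      (∫ u in (0 : ℝ)..Real.pi, fn m a y u ^ n) +
        ∫ u in (0 : ℝ)..Real.pi, fn m a y u ^ n * Real.cos u := by
    have hc' : Continuous fun u => fn m a y u ^ n * Real.cos u := hc.mul Real.continuous_cos
    rw [← intervalIntegral.integral_add (hc.intervalIntegrable _ _)
      (hc'.intervalIntegrable _ _)]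
    refine intervalIntegral.integral_congr fun u _ => ?_
    simp only [wt]
    ring
  rw [h7, h4, add_zero, ← intervalIntegral.integral_add_adjacent_intervals
    (hc.intervalIntegrable 0 (Real.pi / 2)) (hc.intervalIntegrable (Real.pi / 2) Real.pi), h2, ← h1,
    ← two_mul, ← intervalIntegral.integral_const_mul]
  refine intervalIntegral.integral_congr fun u _ => ?_
  show fn m a y (φ u) ^ n * wt u = 2 * (fn m a y (φ u) ^ n * (wt u / 2))
  ring

end even

end Pool.Agent.Q60.DT
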