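import Pool.Agent.Q60.DT.Coh

/-!
# The inertia action on the cohomology of the smooth proper varieties over `ℚ`
-/

set_option autoImplicit false

open Module TensorProduct Filter Topology

namespace Pool.Agent.Q60.DT

universe v w

open Pool.Agent.Q60.SS Pool.Agent.H914

/-- The data, for a prime `p` and a prime `ℓ ≠ p`, of the `ℓ`-adic cohomology (with coefficients
extended to an algebraically closed field `Ω`) of all the smooth proper geometrically irreducible
varieties over `ℚ`: the space `V = ⨁ H^j`, its parts `gr j = H^j` and the operator `F` given by an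
element `σ` of the inertia group at `p` whose image generates topologically the pro-`ℓ` part of the
tame inertia. -/
structure InTheory (Ω : Type w) [Field Ω] where
  /-- the cohomology of `X` with the action of `σ` -/
  H : SmVar.{0} ℚ → FCoh.{v, w} Ω

/-- The known properties: finite dimension, `σ` is invertible and respects the degrees; Künneth
formula; `H^0` is one-dimensional. -/
structure InTheory.IsKnown {Ω : Type w} [Field Ω] (T : InTheory.{v, w} Ω) : Prop where
  coh : ∀ X, IsFCoh (T.H X)
  kunneth : ∀ X Y, ∃ κ, IsFKunneth (T.H X) (T.H Y) (T.H (X.prod Y)) κ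
  conn : ∀ X, finrank Ω ((T.H X).gr 0) = 1

/-- The Betti number `dim H^j (X)`. -/
noncomputable def InTheory.betti {Ω : Type w} [Field Ω] (T : InTheory.{v, w} Ω) (X : SmVar.{0} ℚ)
    (j : ℕ) : ℕ := finrank Ω ((T.H X).gr j)

/-- The degree of the local Euler factor `P^j_{p, ℓ} (h (X), T)`, for `X` with unipotent inertia: the
dimension of the space of the invariants of the inertia group in `H^j (X)`. -/
noncomputable def InTheory.eulerDeg {Ω : Type w} [Field Ω] (T : InTheory.{v, w} Ω)
    (X : SmVar.{0} ℚ) (j : ℕ) : ℕ := inv (T.H X) j

/-- The dimension of the kernel of `(σ - 1) ^ k` on `H^j (X)`, for `X` with unipotent inertia the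
kernel of the power `N ^ k` of the monodromy operator; these numbers give the sizes of the Jordan
blocks of `N` on `H^j (X)`. -/
noncomputable def InTheory.kerN {Ω : Type w} [Field Ω] (T : InTheory.{v, w} Ω) (X : SmVar.{0} ℚ)
    (j k : ℕ) : ℕ := kerDim (T.H X) j k

end Pool.Agent.Q60.DT
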